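import Pool.Agent.H94.CC.Stmts

/-!
BID: the bounded sets form an ideal.
-/

set_option linter.unusedVariables false
set_option synthInstance.maxSize 100000

namespace SW.CC

section
variable {M : Type} [SetStr M] [ZF M]

/-- the least member of `κ` with the property `C` -/
noncomputable def bidMin (κ : M) (C : M → Prop) : M :=
  the (fun b => E b κ ∧ C b ∧ ∀ c : M, E c b → ¬ C c)

theorem bidMin_spec {κ : M} {C : M → Prop} (hC : Cl C) (hκ : Ord κ) (h : ∃ b, E b κ ∧ C b) :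
    E (bidMin κ C) κ ∧ C (bidMin κ C) := by
  obtain ⟨b0, hb0, hC0⟩ := h
  obtain ⟨b, hb, h1, h2, h3⟩ := ord_min hC (hκ.mem hb0) hC0
  have hbκ : E b κ := by
    rcases h3 with h3 | rfl
    · exact hκ.trans hb0 h3
    · exact hb0
  have h4 : bidMin κ C = b := by
    refine the_eq ⟨hbκ, h1, h2⟩ ?_
    rintro c ⟨hc, hc1, hc2⟩
    rcases (hκ.mem hc).tri hb with h | h | h
    · exact absurd hc1 (h2 c h)
    · exact h
    · exact absurd h1 (hc2 b h)
  rw [h4]
  exact ⟨hbκ, h1⟩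

end

theorem cc_bid (hsma : SMAStmt) : BIDStmt := by
  intro M _ _ κ U hU
  have hs := hsma M κ U hU
  have hκ := hU.ord
  refine ⟨fun X => ?_, fun X hX => (mem_BD.1 hX).1, fun X Y hX hY => ?_, fun b X hb hX => ?_, ?_, ?_⟩
  · rw [mem_BD]
    constructor
    · rintro ⟨_, b, hb, h⟩
      exact ⟨b, hb, h⟩
    · rintro ⟨b, hb, h⟩
      exact ⟨fun z hz => hκ.trans hb (h z hz), b, hb, h⟩
  · obtain ⟨h1, b, hb, h2⟩ := mem_BD.1 hX
    exact mem_BD.2 ⟨fun z hz => h1 z (hY z hz), b, hb, fun z hz => h2 z (hY z hz)⟩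
  · exact mem_BD.2 ⟨fun z hz => hκ.trans hb (hX z hz), b, hb, hX⟩
  · intro h
    obtain ⟨_, b, hb, h2⟩ := mem_BD.1 h
    exact not_mem_self b (h2 b hb)
  · intro v f X hv hf hX
    set F : M → M := fun x => bidMin κ (fun b : M => ∀ y : M, E (opair x y) f → Sub y b) with hF
    have hFdf : Fn1 (fun x : M => F x) := by
      rw [hF]
      unfold bidMin
      infer_instance
    have hFs : ∀ x, E x v → E (F x) κ ∧ ∀ y : M, E (opair x y) f → Sub y (F x) := by
      intro x hx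
      refine bidMin_spec (C := fun b : M => ∀ y : M, E (opair x y) f → Sub y b) inferInstance hκ ?_
      obtain ⟨y, hy, hxy, huniq⟩ := hf x hx
      obtain ⟨_, b, hb, hyb⟩ := mem_BD.1 hy
      refine ⟨b, hb, fun y' hy' => ?_⟩
      rw [huniq y' (pairIn_iff.2 hy')]
      exact hyb
    obtain ⟨b, hb, hFb⟩ := hs.bnd F hFdf (hs.ord hv) (fun x hx => (hFs x hx).1)
    have hXb : Sub X b := by
      intro z hz
      obtain ⟨x, y, hx, hxy, hzy⟩ := (hX z).1 hz
      exact (hκ.mem hb).trans (hFb x hx) ((hFs x hx).2 y (pairIn_iff.1 hxy) z hzy)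
    exact mem_BD.2 ⟨fun z hz => hκ.trans hb (hXb z hz), b, hb, hXb⟩

end SW.CC
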