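import Pool.Agent.H94.CC.Stmts

/-!
JID: the sets in `JJ` form an ideal.
-/

set_option linter.unusedVariables false
set_option synthInstance.maxSize 100000

namespace SW.CC

theorem cc_jid (hchs : CHSStmt) (hsma : SMAStmt) : JIDStmt := by
  intro M _ _ κ U A H hU hav
  have hs := hsma M κ U hU
  have hκ := hU.ord
  have hemp : E (emp : M) κ := hκ.trans hU.om emp_mem_om
  refine ⟨fun X hX => (mem_JJ.1 hX).1, fun X Y hX hY => ?_, fun b X hb hX => ?_, ?_, ?_⟩
  · obtain ⟨h1, a, F, h2, h3, h4, h5⟩ := mem_JJ.1 hX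
    exact mem_JJ.2 ⟨fun z hz => h1 z (hY z hz), a, F, h2, h3, h4, fun x hx => h5 x (hY x hx)⟩
  · exact mem_JJ.2 ⟨fun z hz => hκ.trans hb (hX z hz), b, emp, hb,
      fun z hz => absurd hz (not_mem_emp z), hs.ord hemp, fun x hx => Or.inl (hX x hx)⟩
  · intro h
    obtain ⟨_, a, F, h2, h3, h4, h5⟩ := mem_JJ.1 h
    obtain ⟨x, hx, hxa, hxe⟩ := hav F a h3 h4 h2
    rcases h5 x hx with h | ⟨e, he, h⟩
    · exact hxa h
    · exact hxe e he h
  · intro v f X hv hf hX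
    obtain ⟨g, hg⟩ := hchs M v (fun x w : M => ∃ a F : M, w = opair a F ∧ E a κ ∧ Sub F H ∧
      Small κ U F ∧ ∀ y : M, E (opair x y) f → ∀ z : M, E z y → E z a ∨
        ∃ e : M, E e F ∧ InEE A e z) inferInstance (by
      intro x hx
      obtain ⟨y, hy, hxy, huniq⟩ := hf x hx
      obtain ⟨_, a, F, h2, h3, h4, h5⟩ := mem_JJ.1 hy
      refine ⟨opair a F, a, F, rfl, h2, h3, h4, fun y' hy' z hz => ?_⟩
      rw [huniq y' (pairIn_iff.2 hy')] at hz
      exact h5 z hz)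
    have hg' : ∀ x, E x v → E (fst (app g x)) κ ∧ Sub (snd (app g x)) H ∧
        Small κ U (snd (app g x)) ∧ ∀ y : M, E (opair x y) f → ∀ z : M, E z y →
          E z (fst (app g x)) ∨ ∃ e : M, E e (snd (app g x)) ∧ InEE A e z := by
      intro x hx
      obtain ⟨a, F, h1, h2, h3, h4, h5⟩ := hg x hx
      rw [h1, fst_opair, snd_opair]
      exact ⟨h2, h3, h4, h5⟩
    have hdf1 : Fn1 (fun x : M => fst (app g x)) := inferInstance
    have hdf2 : Fn1 (fun x : M => snd (app g x)) := inferInstance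
    obtain ⟨b, hb, hbb⟩ := hs.bnd (fun x => fst (app g x)) hdf1 (hs.ord hv)
      (fun x hx => (hg' x hx).1)
    refine mem_JJ.2 ⟨?_, b, sUn (img v (fun x => snd (app g x))), hb, ?_, ?_, ?_⟩
    · intro z hz
      obtain ⟨x, y, hx, hxy, hzy⟩ := (hX z).1 hz
      obtain ⟨y', hy', hxy', huniq⟩ := hf x hx
      rw [huniq y hxy] at hzy
      exact (mem_JJ.1 hy').1 z hzy
    · intro e he
      rw [mem_sUn] at he
      obtain ⟨w, hw, hew⟩ := he
      rw [mem_img' hdf2] at hw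
      obtain ⟨x, hx, rfl⟩ := hw
      exact (hg' x hx).2.1 e hew
    · exact hs.iUn _ hdf2 (hs.ord hv) (fun y hy => (hg' y hy).2.2.1)
    · intro z hz
      obtain ⟨x, y, hx, hxy, hzy⟩ := (hX z).1 hz
      rcases (hg' x hx).2.2.2 y (pairIn_iff.1 hxy) z hzy with h | ⟨e, he, h⟩
      · exact Or.inl ((hκ.mem hb).trans (hbb x hx) h)
      · refine Or.inr ⟨e, ?_, h⟩
        rw [mem_sUn]
        exact ⟨_, (mem_img' hdf2).2 ⟨x, hx, rfl⟩, he⟩

end SW.CC
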