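import Pool.Agent.H94.CC.Stmts

/-!
LSM: a model of ZFC with a measure gives a countable one.
-/

set_option linter.unusedVariables false
set_option synthInstance.maxSize 100000

namespace SW.CC

theorem cc_lsm_zfc (M : Type) [SetStr M] [ZFC M] [Nonempty M] : ZFC (Hull M) where
  toZF := hull_zf
  choice x := (hull_u (fun N _ (w : Fin 1 → N) => (∀ y : N, E y (w 0) → ∃ z : N, E z y) →
    (∀ y y' z : N, E y (w 0) → E y' (w 0) → E z y → E z y' → y = y') →
    ∃ c : N, ∀ y : N, E y (w 0) → ∃ z : N, (E z y ∧ E z c) ∧ ∀ z' : N, E z' y → E z' c → z' = z)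
    inferInstance ![x]).2 (ZFC.choice _)

/-- the sentence: there is a measure -/
def LsmQ (N : Type) [SetStr N] (w : Fin 0 → N) : Prop := ∃ κ U : N, IsMeasure κ U

theorem LsmQ_u : UDf LsmQ := by
  unfold LsmQ IsMeasure IsOrdinal IsLimit IsFunc IsOrdinal PairIn IsOP Incl
  infer_instance

theorem cc_lsm : LSMStmt := by
  intro M _ _ h
  have hne : Nonempty M := ⟨h.choose⟩
  refine ⟨Hull M, inferInstance, cc_lsm_zfc M, inferInstance, ?_⟩
  exact (hull_u LsmQ LsmQ_u ![]).2 h

end SW.CC
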